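import Pool.Agent.Q169.RC.GoodP
import Pool.Agent.W497.CC.Sum

/-!
# The Singer-Hopf inequality for nonpositively curved cubical manifolds with coloured links

A cubical complex of dimension `2 m` whose vertex links are flag homology spheres is a nonpositively curved (homology)
manifold, and aspherical. We prove `(-1)^m χ ≥ 0` if the links satisfy a local colouring criterion, and a lower bound by
the joins which occur as full subcomplexes of the links.
-/

set_option autoImplicit false

namespace Pool.Agent.Results.MP_9d0d86_gt.ColouredLinks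

open Finset Pool.Agent.W907.SG Pool.Agent.W907.SM Pool.Agent.TH652.Above Pool.Agent.Q169.RC Pool.Agent.W497.CC

/-- the flag complex of a graph: its simplices are the cliques -/
noncomputable def flagComplex {n : ℕ} (G : SimpleGraph (Fin n)) : Finset (Finset (Fin n)) := by
  classical exact univ.filter (fun T => G.IsClique (T : Set (Fin n)))

/-! ### homology spheres -/

/-- the chain `c`, with coefficients modulo `2`, is supported on the faces of `K` with `j`
vertices -/
def SupportedOn {N : ℕ} (K : Finset (Finset (Fin N))) (j : ℕ) (c : Finset (Fin N) → ZMod 2) :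
    Prop :=
  ∀ σ, c σ ≠ 0 → σ ∈ K ∧ σ.card = j

/-- the boundary of a chain (the augmentation is included: the empty face has dimension `-1`) -/
def boundary {N : ℕ} (c : Finset (Fin N) → ZMod 2) (ρ : Finset (Fin N)) : ZMod 2 :=
  ∑ v ∈ ρᶜ, c (insert v ρ)

/-- the reduced mod `2` homology of `K` vanishes in dimension `j - 1` -/
def AcyclicAt {N : ℕ} (K : Finset (Finset (Fin N))) (j : ℕ) : Prop :=
  ∀ c : Finset (Fin N) → ZMod 2, SupportedOn K j c → (∀ ρ, boundary c ρ = 0) →
    ∃ b, SupportedOn K (j + 1) b ∧ ∀ ρ, c ρ = boundary b ρ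

/-- the link of the face `σ` -/
def link {N : ℕ} (K : Finset (Finset (Fin N))) (σ : Finset (Fin N)) : Finset (Finset (Fin N)) :=
  univ.filter (fun τ => Disjoint τ σ ∧ τ ∪ σ ∈ K)

/-- mod `2` homology spheres of dimension `d - 1`: the complex `K` contains the empty face and is closed under
subsets, and the link of every face `σ` (also of the empty face) has the reduced mod `2` homology of a sphere of
dimension `d - 1 - |σ|` -/
def IsHomologySphere {N : ℕ} (K : Finset (Finset (Fin N))) (d : ℕ) : Prop :=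
  (∅ ∈ K ∧ ∀ σ ∈ K, ∀ τ : Finset (Fin N), τ ⊆ σ → τ ∈ K) ∧ (∀ σ ∈ K, σ.card ≤ d) ∧
    (∀ σ ∈ K, ∀ j, j + σ.card ≠ d → AcyclicAt (link K σ) j) ∧
    ∀ σ ∈ K, ∃ z : Finset (Fin N) → ZMod 2, z ≠ 0 ∧ SupportedOn (link K σ) (d - σ.card) z ∧
      (∀ ρ, boundary z ρ = 0) ∧
      ∀ z', SupportedOn (link K σ) (d - σ.card) z' → (∀ ρ, boundary z' ρ = 0) → z' = 0 ∨ z' = z

/-! ### the theorem -/

theorem mem_flag {n : ℕ} (G : SimpleGraph (Fin n)) (T : Finset (Fin n)) :
    T ∈ flagComplex G ↔ G.IsClique (T : Set (Fin n)) := by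
  classical
  unfold flagComplex
  simp

/-- The flag complex of `G` is a homology sphere of dimension `2 m - 1`, over the reals and modulo `2`, and
* either `b = 0` and there is a set `B` of vertices with a colouring by `m + 1` colours such that adjacent vertices of
  `B` have different colours and all simplices with a vertex outside `B` are good,
* or all simplices are good, some full subcomplex (with the set of vertices `A`) is the join of `m` complexes
  `A_j = A ∩ p⁻¹(j)` which are not simplices, and `b = ∏_j (-χ(A_j))`, where `χ(A_j)` is the Euler characteristic of the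
  right-angled Coxeter group of `A_j` (for `A_j` consisting of `k` points `-χ(A_j) = k / 2 - 1`). -/
def LinkBound (m : ℕ) {N : ℕ} (G : SimpleGraph (Fin N)) (b : ℚ) : Prop :=
  HSph (2 * m) G ∧ IsHomologySphere (flagComplex G) (2 * m) ∧
  ((b = 0 ∧ ∃ (B : Set (Fin N)) (κ : Fin N → Fin (m + 1)),
      (∀ u v, u ∈ B → v ∈ B → G.Adj u v → κ u ≠ κ v) ∧
      ∀ v, v ∉ B → ∀ T : Finset (Fin N), v ∈ T → G.IsClique (T : Set (Fin N)) → Good (2 * m) G T) ∨
    ((∀ T : Finset (Fin N), G.IsClique (T : Set (Fin N)) → Good (2 * m) G T) ∧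
      ∃ (A : Set (Fin N)) (p : Fin N → Fin m), (∀ u ∈ A, ∀ v ∈ A, p u ≠ p v → G.Adj u v) ∧
        (∀ j, ∃ s ∈ A, ∃ t ∈ A, p s = j ∧ p t = j ∧ s ≠ t ∧ ¬ G.Adj s t) ∧
        b = ∏ j : Fin m, (- chiS G (A ∩ {v | p v = j}))))

theorem omega_eq {n : ℕ} (G : SimpleGraph (Fin n)) : Pool.Agent.W497.FS.omega (flagComplex G) = chiW G := by
  classical
  unfold Pool.Agent.W497.FS.omega chiW flagComplex
  rw [sum_filter]
  refine sum_congr rfl fun T _ => ?_
  split_ifs <;> first | rw [div_pow] | rfl

theorem bound {m N : ℕ} {G : SimpleGraph (Fin N)} {b : ℚ} (h : LinkBound m G b) :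
    b ≤ (-1 : ℚ) ^ m * chiW G := by
  obtain ⟨hR, h2, h⟩ := h
  have hH : Pool.Agent.Y131.KS.HSph (flagComplex G) (2 * m) := ⟨h2.1, h2.2.1, h2.2.2.1, h2.2.2.2⟩
  rcases h with ⟨rfl, B, κ, hκ, hB⟩ | ⟨hg, A, p, hadj, hne, rfl⟩
  · exact sign_of_good G (flagComplex G) (mem_flag G) hH hR B κ hκ hB
  · exact chi_join_bound G (P_of_good G (flagComplex G) (mem_flag G) hH hR hg) hR A p hadj hne

open Classical in
/-- Let `P` be the poset of the cubes of a finite cubical complex such that the link of each vertex `v` is the flag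
complex of a graph with `LinkBound m G (b v)`; in particular it is a homology sphere of dimension `2 m - 1`. Then
`(-1)^m χ(P) ≥ ∑_v b v ≥ 0` (the second inequality if `b v ≥ 0` for all `v`, for example `b = 0`). -/
theorem result (m : ℕ) (P : Type) [Fintype P] [PartialOrder P] (dim : P → ℕ) (hP : IsCubical P dim) (b : P → ℚ)
    (hL : ∀ v : P, dim v = 0 → ∃ (N : ℕ) (G : SimpleGraph (Fin N)), IsLink v (flagComplex G) ∧
      LinkBound m G (b v)) :
    (∑ v ∈ univ.filter (fun v : P => dim v = 0), b v ≤ (-1) ^ m * (chi P dim : ℚ)) ∧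
    ((∀ v, 0 ≤ b v) → 0 ≤ (-1) ^ m * chi P dim) := by
  have h1 : ∀ v : P, ∃ p : Σ N : ℕ, SimpleGraph (Fin N), dim v = 0 →
      IsLink v (flagComplex p.2) ∧ LinkBound m p.2 (b v) := by
    intro v
    by_cases hv : dim v = 0
    · obtain ⟨N, G, h⟩ := hL v hv
      exact ⟨⟨N, G⟩, fun _ => h⟩
    · exact ⟨⟨0, ⊥⟩, fun h => absurd h hv⟩
  choose p hp using h1
  have h2 := chi_eq hP (fun v => (p v).1) (fun v => flagComplex (p v).2) (fun v hv => (hp v hv).1)
    (fun v _ F hF G' hG' => by
      rw [mem_flag] at hF ⊢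
      exact hF.subset (by exact_mod_cast hG'))
  have h3 : ∑ v ∈ univ.filter (fun v : P => dim v = 0), b v ≤ (-1) ^ m * (chi P dim : ℚ) := by
    rw [h2, mul_sum]
    refine sum_le_sum fun v hv => ?_
    rw [omega_eq]
    exact bound (hp v (mem_filter.1 hv).2).2
  refine ⟨h3, fun hb => ?_⟩
  have h4 : (0 : ℚ) ≤ (-1) ^ m * (chi P dim : ℚ) := (sum_nonneg fun v _ => hb v).trans h3
  exact_mod_cast h4

end Pool.Agent.Results.MP_9d0d86_gt.ColouredLinks
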