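import Pool.Agent.Q116.GD.Cub

/-!
# Weak forms of the Singer-Hopf inequality for nonpositively curved cubical manifolds

A connected finite cubical complex `P` of dimension `2 m` all of whose vertex links are flag homology
spheres of dimension `2 m - 1` is nonpositively curved, hence aspherical (Gromov), and a homology
manifold.  The fields over which the links are homology spheres form a given nonempty family (one
field, or all fields).

We show that for these complexes the Singer-Hopf inequality `(-1)^m χ(P) ≥ 0` is equivalent to much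
weaker statements.

* In each dimension it suffices that `(-1)^m χ(P) ≥ -ε c(P)`, `c(P)` the number of cubes, for every
  `ε > 0` and those `P` whose vertices have at least `N(ε)` edges and are all equivalent under
  automorphisms of `P`.
* If all dimensions are considered, it suffices that for every `K` there is one `m > K` such that
  `(-1)^m χ(P) ≥ -ε (c(P) + ∑_v deg(v)^(m-K))` for every `ε > 0` and these `P` of dimension `2 m`; note that
  `c(P)` and `|χ(P)|` may be of order `∑_v deg(v)^m`.

Proof.  `χ(P)` is the sum over the vertices of the Charney-Davis quantities `ω(L_v)` of the vertex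
links.  For a flag sphere `S` with `f` vertices the faces of the cube `[0,1]^f` whose free coordinates
form a face of `S` form such a complex with `2^f` vertices, all of whose links are `S`.  Doubling a
flag sphere along the link of a vertex and joins with long cycles amplify a violation
`(-1)^m ω(S) < 0`.
-/

set_option autoImplicit false

namespace Pool.Agent.Results.MP_9d0d86_gt.CubicalWeakForms

open Pool.Agent.W497.FS Pool.Agent.W497.CC Finset Q116.GD

/-- `P`, with the dimension function `dim`, is the poset of cubes of a connected finite cubical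
complex of dimension `2 m` all of whose vertex links are flag homology spheres of dimension `2 m - 1`
over all fields `F j` -/
structure IsCubicalManifold {ι : Type} (F : ι → Type) [∀ j, Field (F j)] (m : ℕ) (P : Type)
    [Fintype P] [PartialOrder P] (dim : P → ℕ) : Prop where
  cubical : IsCubical P dim
  nonempty : Nonempty P
  connected : ∀ x y : P, Relation.EqvGen (· ≤ ·) x y
  link : ∀ v : P, dim v = 0 → ∃ (n : ℕ) (S : Finset (Finset (Fin n))), IsLink v S ∧
    ∀ j, IsFlagSphere (F j) (2 * m) S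

open scoped Classical in
/-- the vertices -/
noncomputable def vertices {P : Type} [Fintype P] (dim : P → ℕ) : Finset P :=
  univ.filter fun v => dim v = 0

open scoped Classical in
/-- the number of edges at the vertex `v` -/
noncomputable def deg {P : Type} [Fintype P] [PartialOrder P] (dim : P → ℕ) (v : P) : ℕ :=
  (univ.filter fun x : P => v ≤ x ∧ dim x = 1).card

/-- all vertices are equivalent under automorphisms -/
def Homogeneous {P : Type} [Fintype P] [PartialOrder P] (dim : P → ℕ) : Prop :=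
  ∀ v w : P, dim v = 0 → dim w = 0 → ∃ φ : P ≃o P, φ v = w

variable {ι : Type} (F : ι → Type) [∀ j, Field (F j)]

/-- the Singer-Hopf inequality for the cubical manifolds of dimension `2 m` -/
def SingerHopf (m : ℕ) : Prop :=
  ∀ (P : Type) [Fintype P] [PartialOrder P] (dim : P → ℕ), IsCubicalManifold F m P dim →
    0 ≤ (-1) ^ m * chi P dim

/-- the inequality `(-1)^m χ(P) ≥ -ε (c(P) + b ∑_v deg(v)^e)`, `c(P)` the number of cubes, for every
`ε > 0` and the homogeneous cubical manifolds of dimension `2 m` all of whose vertices have at least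
`N(ε)` edges -/
def Weak (m : ℕ) (b : ℝ) (e : ℕ) : Prop :=
  ∀ ε : ℝ, 0 < ε → ∃ N : ℕ, ∀ (P : Type) [Fintype P] [PartialOrder P] (dim : P → ℕ),
    IsCubicalManifold F m P dim → Homogeneous dim → (∀ v ∈ vertices dim, N ≤ deg dim v) →
      -ε * ((Fintype.card P : ℝ) + b * ∑ v ∈ vertices dim, (deg dim v : ℝ) ^ e) ≤
        (-1) ^ m * chi P dim

variable {F}

theorem weak_of {m : ℕ} {b : ℝ} (hb : 0 ≤ b) {e : ℕ} (h : SingerHopf F m) : Weak F m b e := by
  intro ε hε
  refine ⟨0, fun P _ _ dim hP _ _ => ?_⟩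
  have h1 : (0 : ℝ) ≤ (-1) ^ m * chi P dim := by exact_mod_cast h P dim hP
  have h2 : 0 ≤ ε * ((Fintype.card P : ℝ) + b * ∑ v ∈ vertices dim, (deg dim v : ℝ) ^ e) := by
    positivity
  linarith

variable [Nonempty ι]

theorem closed_of {n d : ℕ} {S : Finset (Finset (Fin n))} (hS : ∀ j, IsFlagSphere (F j) d S) :
    Closed S := by
  obtain ⟨t⟩ := ‹Nonempty ι›
  obtain ⟨r, hr⟩ := hS t
  exact fun T hT U hU => hr.1 T hT U hU

theorem omega_eq' {n m : ℕ} {S : Finset (Finset (Fin n))} (hS : Fam F (2 * m) S) {a : ℕ → ℤ}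
    (ha : Exp (2 * m) (PS S) a) : (-1) ^ m * omega S = (a m : ℚ) / 4 ^ m := by
  obtain ⟨t⟩ := ‹Nonempty ι›
  rw [(hS t).omega_eq]
  exact lam_of_exp ha

/-- the inequality for the spheres gives the inequality for the cubical manifolds -/
theorem singerHopf_of {m : ℕ} (h : ∀ (n : ℕ) (S : Finset (Finset (Fin n))), Fam F (2 * m) S →
    0 ≤ (-1) ^ m * omega S) : SingerHopf F m := by
  classical
  intro P _ _ dim hP
  have h1 : ∀ v : P, ∃ p : Σ n : ℕ, Finset (Finset (Fin n)), dim v = 0 →
      IsLink v p.2 ∧ Fam F (2 * m) p.2 := by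
    intro v
    by_cases hv : dim v = 0
    · obtain ⟨n, S, h⟩ := hP.link v hv
      exact ⟨⟨n, S⟩, fun _ => h⟩
    · exact ⟨⟨0, ∅⟩, fun h => absurd h hv⟩
  choose p hp using h1
  have h2 := chi_eq hP.cubical (fun v => (p v).1) (fun v => (p v).2) (fun v hv => (hp v hv).1)
    (fun v hv => closed_of (hp v hv).2)
  have h3 : (0 : ℚ) ≤ (-1) ^ m * ((chi P dim : ℤ) : ℚ) := by
    rw [h2, mul_sum]
    exact sum_nonneg fun v hv => h _ _ (hp v (mem_filter.mp hv).2).2
  exact_mod_cast h3

/-- the complex with all vertex links equal to a given sphere -/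
theorem mir_manifold {n m : ℕ} {S : Finset (Finset (Fin n))} (hS : Fam F (2 * m) S) :
    IsCubicalManifold F m (Mir S) mdim := by
  have hc : Closed S := closed_of hS
  have he : ∅ ∈ S := by
    obtain ⟨t⟩ := ‹Nonempty ι›
    rw [← (hS t).cl_eq]
    exact empty_mem_cl
  refine ⟨mir_cubical hc, mir_nonempty he, mir_conn hc he, fun v hv => ⟨n, S, ?_, hS⟩⟩
  obtain ⟨e, he, -⟩ := mir_link hc v hv
  exact ⟨e, he⟩

/-- the weak form for the spheres -/
theorem sphere_of_weak {m : ℕ} {b : ℝ} (hb : 0 ≤ b) {e : ℕ} (h : Weak F m b e) (ε : ℝ) (hε : 0 < ε) :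
    ∃ N : ℕ, ∀ (n : ℕ) (S : Finset (Finset (Fin n))), Fam F (2 * m) S → N ≤ numVert S →
      ∀ a, Exp (2 * m) (PS S) a → -ε * ((S.card : ℝ) + b * (numVert S : ℝ) ^ e) ≤ a m := by
  classical
  obtain ⟨N, hN⟩ := h (ε / 4 ^ m) (by positivity)
  refine ⟨N, fun n S hS hNS a ha => ?_⟩
  have hc : Closed S := closed_of hS
  have hM := mir_manifold hS
  have h1 := hN (Mir S) mdim hM (fun v w hv hw => mir_homog v w hv hw) (fun v hv => by
    have h2 := mir_deg hc v (mem_filter.mp hv).2
    have h3 : deg mdim v = numVert S := by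
      rw [deg, ← h2]
    rw [h3]
    exact hNS)
  have h2 : ∑ v ∈ vertices (mdim (S := S)), (deg mdim v : ℝ) ^ e =
      ((vertices (mdim (S := S))).card : ℝ) * (numVert S : ℝ) ^ e := by
    rw [← nsmul_eq_mul, ← sum_const]
    refine sum_congr rfl fun v hv => ?_
    have h3 : deg mdim v = numVert S := by
      rw [deg, ← mir_deg hc v (mem_filter.mp hv).2]
    rw [h3]
  have h3 : (((chi (Mir S) mdim : ℤ) : ℚ)) = ((vertices (mdim (S := S))).card : ℚ) * omega S :=
    mir_chi hc
  have h4 : (-1 : ℚ) ^ m * ((chi (Mir S) mdim : ℤ) : ℚ) =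
      ((vertices (mdim (S := S))).card : ℚ) * ((a m : ℚ) / 4 ^ m) := by
    rw [h3, ← omega_eq' hS ha]
    ring
  have h5 : (-1 : ℝ) ^ m * ((chi (Mir S) mdim : ℤ) : ℝ) =
      ((vertices (mdim (S := S))).card : ℝ) * ((a m : ℝ) / 4 ^ m) := by
    exact_mod_cast congrArg (fun q : ℚ => (q : ℝ)) h4
  have h6 : (Fintype.card (Mir S) : ℝ) ≤ ((vertices (mdim (S := S))).card : ℝ) * (S.card : ℝ) := by
    exact_mod_cast mir_card hc
  have hV : (0 : ℝ) < ((vertices (mdim (S := S))).card : ℝ) := by
    obtain ⟨x⟩ := hM.nonempty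
    obtain ⟨v, hv, -⟩ := mir_vertex hc x
    have : 0 < (vertices (mdim (S := S))).card := card_pos.2 ⟨v, mem_filter.2 ⟨mem_univ _, hv⟩⟩
    exact_mod_cast this
  rw [h2, h5] at h1
  set V : ℝ := ((vertices (mdim (S := S))).card : ℝ) with hVdef
  have h7 : -(ε / 4 ^ m) * (V * ((S.card : ℝ) + b * (numVert S : ℝ) ^ e)) ≤
      -(ε / 4 ^ m) * ((Fintype.card (Mir S) : ℝ) + b * (V * (numVert S : ℝ) ^ e)) := by
    have h8 : (Fintype.card (Mir S) : ℝ) + b * (V * (numVert S : ℝ) ^ e) ≤
        V * ((S.card : ℝ) + b * (numVert S : ℝ) ^ e) := by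
      have : V * ((S.card : ℝ) + b * (numVert S : ℝ) ^ e) =
          V * (S.card : ℝ) + b * (V * (numVert S : ℝ) ^ e) := by ring
      rw [this]
      linarith
    have h9 : 0 < ε / 4 ^ m := by positivity
    nlinarith
  have h8 := h7.trans h1
  have h9 : V * (-(ε / 4 ^ m) * ((S.card : ℝ) + b * (numVert S : ℝ) ^ e)) ≤ V * ((a m : ℝ) / 4 ^ m) := by
    linarith
  have h10 := le_of_mul_le_mul_left h9 hV
  have h11 : (0 : ℝ) < 4 ^ m := by positivity
  rw [le_div_iff₀ h11] at h10
  have h12 : -(ε / 4 ^ m) * ((S.card : ℝ) + b * (numVert S : ℝ) ^ e) * 4 ^ m =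
      -ε * ((S.card : ℝ) + b * (numVert S : ℝ) ^ e) := by
    field_simp
  rw [h12] at h10
  exact h10

theorem omega_nonneg_of {m : ℕ} (h : ∀ (n : ℕ) (S : Finset (Finset (Fin n))), Fam F (2 * m) S →
    ∀ a, Exp (2 * m) (PS S) a → 0 ≤ a m) (n : ℕ) (S : Finset (Finset (Fin n)))
    (hS : Fam F (2 * m) S) : 0 ≤ (-1) ^ m * omega S := by
  obtain ⟨t⟩ := id ‹Nonempty ι›
  obtain ⟨a, ha⟩ := exists_exp (hS t)
  rw [omega_eq' hS ha]
  have h1 : (0 : ℚ) ≤ a m := by exact_mod_cast h n S hS a ha
  positivity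

theorem singerHopf_of_weak {m : ℕ} (h : Weak F m 0 0) : SingerHopf F m := by
  refine singerHopf_of (omega_nonneg_of fun n S hS a ha => cd_of_weak (F := F) ?_ hS ha)
  intro ε hε
  obtain ⟨N, hN⟩ := sphere_of_weak le_rfl h ε hε
  refine ⟨N, fun n S hS hNS a ha => ?_⟩
  have h1 := hN n S hS hNS a ha
  rw [lin_single (by omega)]
  simpa using h1

/-- **Weak forms of the Singer-Hopf inequality for nonpositively curved cubical manifolds.**
The fields `F j` form an arbitrary nonempty family.
(1) For every `m`: `(-1)^m χ(P) ≥ 0` for all cubical manifolds `P` of dimension `2 m`, if and only if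
for every `ε > 0` there is an `N` such that `(-1)^m χ(P) ≥ -ε c(P)`, `c(P)` the number of cubes, for
the homogeneous ones with at least `N` edges at the vertices.
(2) `(-1)^m χ(P) ≥ 0` for all `m` and all cubical manifolds `P` of dimension `2 m`, if and only if for
every `K` there is an `m > K` such that for every `ε > 0` there is an `N` such that
`(-1)^m χ(P) ≥ -ε (c(P) + ∑_v deg(v)^(m-K))` for the homogeneous ones of dimension `2 m` with at least
`N` edges at the vertices. -/
theorem result {ι : Type} [Nonempty ι] (F : ι → Type) [∀ j, Field (F j)] :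
    (∀ m, SingerHopf F m ↔ Weak F m 0 0) ∧
    ((∀ m, SingerHopf F m) ↔ (∀ K, ∃ m, K < m ∧ Weak F m 1 (m - K))) := by
  refine ⟨fun m => ⟨weak_of le_rfl, singerHopf_of_weak⟩, fun h K => ⟨K + 1, by omega,
    weak_of zero_le_one (h (K + 1))⟩, fun h => ?_⟩
  have h1 := (criterion_two (F := F) 0).2 (fun K => by
    obtain ⟨m, hm, h2⟩ := h K
    refine ⟨m, hm, fun ε hε => ?_⟩
    obtain ⟨N, hN⟩ := sphere_of_weak zero_le_one h2 ε hε
    refine ⟨N, fun n S hS hNS γ hγ => ?_⟩
    rw [Nat.add_zero] at hS hγ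
    obtain ⟨t⟩ := id ‹Nonempty ι›
    obtain ⟨a, ha⟩ := exists_exp (hS t)
    have h3 := hN n S hS hNS a ha
    rw [gamma_eq_exp (hS t) ha hγ m (by omega)]
    simpa using h3)
  intro m
  refine singerHopf_of (omega_nonneg_of fun n S hS a ha => ?_)
  obtain ⟨t⟩ := id ‹Nonempty ι›
  refine h1 m n S ?_ a ?_
  · rw [Nat.add_zero]
    exact hS
  · rw [Nat.add_zero]
    exact isGamma_of_exp (hS t) ha

end Pool.Agent.Results.MP_9d0d86_gt.CubicalWeakForms
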