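import Pool.Agent.Q188.T8.Sec

/-!
# The Singer-Hopf sign for torus invariant curvature tensors in dimension eight

Let `n = 2 m` with `m = 3` or `m = 4`. Suppose that the tangent space at a point of a Riemannian
`n`-manifold splits into `m` orthogonal planes such that the curvature tensor `R` is invariant under the
rotations by `90` degrees in each of the planes (for instance, `R` is invariant under a maximal torus of
`SO(n)`; this holds for all `U(m)`-invariant curvature tensors and for all linear combinations of
`h ∧ h` and `skewCurv A`, where `h` and `A` are diagonal in the planes). If the sectional curvatures of the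
`2`-planes which are contained in the sum of two of these planes (a subspace of dimension four) are at
most `-δ ≤ 0`, then `(-1)^m` times the Gauss-Bonnet-Chern integrand at this point is at least its
value for constant curvature `δ`. So a closed Riemannian manifold of dimension six or eight of
nonpositive sectional curvature (which is aspherical) all of whose curvature tensors are of this kind
satisfies `(-1)^m χ ≥ 0`.

For arbitrary curvature tensors of negative sectional curvature the integrand can have the wrong sign
from dimension six on. For torus invariant tensors the hypothesis on the sectional curvature is in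
dimension eight weaker than strong nonpositivity (a nonpositive curvature operator after adding a
`4`-form).

Proof: for a torus invariant tensor the integrand is a formal Gaussian mean of a product of `m` sums of
four squares (`Pool/Agent/Q116/HT`). In dimension eight this gives for `-R` a polynomial of degree four
in the curvatures `k_p` of the planes, the sectional curvatures `c_pq` and the components
`a_pq = -R(p, p', q, q')`. The hypothesis gives `3 |a_pq| ≤ 2 c_pq + 2 √(k_p k_q)`, and under this
condition the polynomial is nonnegative: the products of three of the `a_pq` are bounded by a cubic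
inequality with half of the coefficients of dimension six, those of four by a quadratic form in the
three products `a_pq a_rs`.
-/

set_option autoImplicit false

namespace Pool.Agent.Results.MP_9d0d86_gt.TorusInvariantEight

open MeasureTheory
open Pool.Agent.W666.GB (AlgCurv gbc roundGB CurvField)
open Q116.HT (TurnInv)

/-- the sum of the planes `p` and `q` of the orthonormal basis `e` -/
def sumPlanes {V : Type} [NormedAddCommGroup V] [InnerProductSpace ℝ V] {m : ℕ}
    (e : OrthonormalBasis (Fin m × Bool) ℝ V) (p q : Fin m) : Submodule ℝ V :=
  Submodule.span ℝ {e (p, false), e (p, true), e (q, false), e (q, true)}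

/-- `R` is invariant under the rotations by `90` degrees in the planes of some orthonormal basis, and
the sectional curvatures of the `2`-planes in the sum of two of them are at most `-δ` -/
def TorusClass {V : Type} [NormedAddCommGroup V] [InnerProductSpace ℝ V] (m : ℕ)
    (R : V → V → V → V → ℝ) (δ : ℝ) : Prop :=
  ∃ e : OrthonormalBasis (Fin m × Bool) ℝ V, TurnInv e R ∧
    ∀ p q : Fin m, ∀ x ∈ sumPlanes e p q, ∀ y ∈ sumPlanes e p q,
      R x y x y ≤ -(δ * (inner ℝ x x * inner ℝ y y - inner ℝ x y ^ 2))

theorem pointwise {m : ℕ} (hm : m = 3 ∨ m = 4) {V : Type} [NormedAddCommGroup V]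
    [InnerProductSpace ℝ V] (e : OrthonormalBasis (Fin m × Bool) ℝ V) {R : V → V → V → V → ℝ}
    {δ : ℝ} (hR : AlgCurv R) (hδ : 0 ≤ δ) (h : TorusClass m R δ) :
    roundGB m δ ≤ (-1) ^ m * gbc e R := by
  obtain ⟨e', hI, hs⟩ := h
  have hP : Q188.T8.PLe e' R δ := by
    intro p q x hx y hy
    have h1 := hs p q x hx y hy
    rw [sq] at h1
    simp only [Pool.Agent.W669.HD.unitT, real_inner_comm x y] at h1 ⊢
    linarith
  rw [Pool.Agent.W688.HD.bas m V e e' R hR]
  rcases hm with rfl | rfl
  · exact Q188.T8.six_bound'' e' hR hδ hI hP
  · exact Q188.T8.eight_bound e' hR hδ hI hP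

/-- Torus invariant curvature tensors of nonpositive sectional curvature in dimensions six and
eight. -/
theorem result :
    -- at a point
    (∀ (m : ℕ) (V : Type) [NormedAddCommGroup V] [InnerProductSpace ℝ V]
      (e : OrthonormalBasis (Fin m × Bool) ℝ V) (R : V → V → V → V → ℝ) (δ : ℝ), m = 3 ∨ m = 4 →
      AlgCurv R → 0 ≤ δ → TorusClass m R δ → roundGB m δ ≤ (-1) ^ m * gbc e R) ∧
    -- the integrals
    ∀ (m : ℕ) (M : Type) [MeasurableSpace M] (μ : Measure M) (K : CurvField m M) (c : M → ℝ),
      m = 3 ∨ m = 4 → (∀ p, 0 ≤ c p ∧ TorusClass m (K.R p) (c p)) →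
        0 ≤ (-1) ^ m * ∫ p, K.gb p ∂μ ∧
        (Integrable K.gb μ → Integrable (fun p => roundGB m (c p)) μ →
          ∫ p, roundGB m (c p) ∂μ ≤ (-1) ^ m * ∫ p, K.gb p ∂μ) ∧
        (Integrable K.gb μ → (∀ p, 0 < c p) → μ ≠ 0 → 0 < (-1) ^ m * ∫ p, K.gb p ∂μ) := by
  refine ⟨fun m V _ _ e R δ hm hR hδ h => pointwise hm e hR hδ h, ?_⟩
  intro m M _ μ K c hm h
  have hb : ∀ p, roundGB m (c p) ≤ (-1) ^ m * K.gb p := fun p =>
    pointwise hm (K.e p) (K.curv p) (h p).1 (h p).2
  have h0 : ∀ p, 0 ≤ (-1) ^ m * K.gb p := fun p => by
    refine le_trans ?_ (hb p)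
    have := (h p).1
    unfold roundGB
    positivity
  rw [← integral_const_mul]
  refine ⟨integral_nonneg h0, fun h1 h2 => integral_mono h2 (h1.const_mul _) hb,
    fun h1 h2 h3 => ?_⟩
  rw [integral_pos_iff_support_of_nonneg h0 (h1.const_mul _)]
  have hs : Function.support (fun p => (-1) ^ m * K.gb p) = Set.univ := by
    ext p
    simp only [Function.mem_support, Set.mem_univ, iff_true]
    have := Pool.Agent.W666.GB.roundGB_pos (m := m) (h2 p)
    exact (lt_of_lt_of_le this (hb p)).ne'
  rw [hs]
  exact Measure.measure_univ_pos.2 h3

end Pool.Agent.Results.MP_9d0d86_gt.TorusInvariantEight
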